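import Pool.Agent.PCS.Stmts

/-!
Row ITP of table pcs (MP_c4a8aa_al): iterated parents.
-/

namespace Pool.Agent.PCS.H90

open Pool.Agent.PCS Pool.Agent.H50.CIG

variable {Γ V : Type} [Group Γ] [MulAction Γ V]

lemma par_iter_smul (T : Tree Γ V) (k : ℕ) (g : Γ) (v : V) :
    T.par^[k] (g • v) = g • T.par^[k] v := by
  induction k generalizing v with
  | zero => rfl
  | succ k ih =>
    rw [Function.iterate_succ_apply, Function.iterate_succ_apply, T.par_smul, ih]

lemma lv_iter (T : Tree Γ V) (k : ℕ) (v : V) : T.lv (T.par^[k] v) = T.lv v - k := by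
  induction k with
  | zero => rfl
  | succ k ih =>
    rw [Function.iterate_succ_apply', T.lv_par, ih, Nat.sub_sub]

lemma kk_iter (T : Tree Γ V) (k : ℕ) (v : V) : KK T (T.par^[k] v) ≤ KK T v := by
  intro h hh m w hw
  refine hh (k + m) w ?_
  rw [Function.iterate_add_apply, hw]

lemma kk_conj (T : Tree Γ V) (g h : Γ) (v : V) :
    h ∈ KK T v ↔ g * h * g⁻¹ ∈ KK T (g • v) := by
  constructor
  · intro hh m w hw
    have h1 : T.par^[m] (g⁻¹ • w) = v := by
      rw [par_iter_smul, hw, inv_smul_smul]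
    have h2 := hh m _ h1
    rw [mul_smul, mul_smul, h2, smul_inv_smul]
  · intro hh m w hw
    have h1 : T.par^[m] (g • w) = g • v := by
      rw [par_iter_smul, hw]
    have h2 := hh m _ h1
    rw [mul_smul, mul_smul, inv_smul_smul] at h2
    exact smul_left_cancel g h2

lemma d_pos (T : Tree Γ V) : 0 < T.d := by
  obtain ⟨i, hi, -⟩ := T.ex_child (T.child 0 T.root) (by rw [T.lv_child]; exact Nat.succ_pos _)
  exact lt_of_le_of_lt (Nat.zero_le i) hi

lemma kk_child (T : Tree Γ V) (h : Γ) (v : V) (hc : ∀ i < T.d, h ∈ KK T (T.child i v)) :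
    h ∈ KK T v := by
  have h0 : h • v = v := by
    have h1 := hc 0 (d_pos T) 0 (T.child 0 v) rfl
    have h2 := T.par_smul h (T.child 0 v)
    rw [h1, T.par_child] at h2
    exact h2.symm
  intro k
  induction k with
  | zero =>
    intro w hw
    have hw' : w = v := hw
    rw [hw', h0]
  | succ k ih =>
    intro w hw
    rw [Function.iterate_succ_apply'] at hw
    by_cases hl : 0 < T.lv (T.par^[k] w)
    · obtain ⟨i, hi, hiw⟩ := T.ex_child _ hl
      rw [hw] at hiw
      exact hc i hi k w hiw.symm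
    · have hl0 : T.lv (T.par^[k] w) = 0 := Nat.eq_zero_of_not_pos hl
      have h1 : T.par^[k] w = T.root := T.eq_root _ hl0
      have h2 : T.lv v = 0 := by
        rw [← hw, T.lv_par, hl0]
      exact ih w (h1.trans (T.eq_root _ h2).symm)

theorem itp : ItpStmt := by
  intro Γ V _ _ T
  refine ⟨par_iter_smul T, lv_iter T, kk_iter T, kk_conj T, ?_, kk_child T⟩
  intro g h v hg hh
  have h1 := (kk_conj T g h v).mp hh
  rwa [hg] at h1

end Pool.Agent.PCS.H90
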